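import Pool.Agent.W712.RP.Stm

set_option autoImplicit false

namespace Pool.Agent.W199.RP

open Pool.Agent.W712.RP

theorem extend {n d : ℕ} {F : Finset (Fin n) → Prop}
    (hext : ∀ I : Finset (Fin n), I.Nonempty → I.card < d → F I → ∃ k, k ∉ I ∧ F (insert k I))
    (t : ℕ) : ∀ I : Finset (Fin n), I.Nonempty → F I → I.card + t ≤ d →
      ∃ I' : Finset (Fin n), I ⊆ I' ∧ F I' ∧ I'.card = I.card + t := by
  induction t with
  | zero => intro I _ hF _; exact ⟨I, subset_rfl, hF, rfl⟩
  | succ t ih =>
    intro I hne hF hc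
    obtain ⟨k, hk, hk2⟩ := hext I hne (by omega) hF
    have hcard : (insert k I).card = I.card + 1 := Finset.card_insert_of_notMem hk
    obtain ⟨I', h1, h2, h3⟩ := ih (insert k I) (Finset.insert_nonempty _ _) hk2 (by omega)
    exact ⟨I', (Finset.subset_insert k I).trans h1, h2, by omega⟩

theorem key {n d : ℕ} {F : Finset (Fin n) → Prop}
    (hext : ∀ I : Finset (Fin n), I.Nonempty → I.card < d → F I → ∃ k, k ∉ I ∧ F (insert k I))
    (a b : ℕ) (ha : 1 ≤ a) (hab : a ≤ b) (hbd : b ≤ d) :
    Set.ncard {I : Finset (Fin n) | I.card = a ∧ F I} ≤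
      b.choose a * Set.ncard {I : Finset (Fin n) | I.card = b ∧ F I} := by
  classical
  have e : ∀ c : ℕ, Set.ncard {I : Finset (Fin n) | I.card = c ∧ F I} =
      (Finset.univ.filter (fun I : Finset (Fin n) => I.card = c ∧ F I)).card := by
    intro c
    rw [← Set.ncard_coe_finset]
    congr 1
    ext I
    simp
  rw [e, e]
  have hsub : (Finset.univ.filter (fun I : Finset (Fin n) => I.card = a ∧ F I)) ⊆
      (Finset.univ.filter (fun I : Finset (Fin n) => I.card = b ∧ F I)).biUnion
        (fun I' => I'.powersetCard a) := by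
    intro I hI
    rw [Finset.mem_filter] at hI
    obtain ⟨-, h1, h2⟩ := hI
    obtain ⟨I', g1, g2, g3⟩ := extend hext (b - a) I (Finset.card_pos.1 (by omega)) h2 (by omega)
    rw [Finset.mem_biUnion]
    exact ⟨I', by rw [Finset.mem_filter]; exact ⟨Finset.mem_univ _, by omega, g2⟩,
      Finset.mem_powersetCard.2 ⟨g1, h1⟩⟩
  refine (Finset.card_le_card hsub).trans (Finset.card_biUnion_le.trans ?_)
  have : ∀ I' ∈ (Finset.univ.filter (fun I : Finset (Fin n) => I.card = b ∧ F I)),
      (I'.powersetCard a).card = b.choose a := by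
    intro I' hI'
    rw [Finset.mem_filter] at hI'
    rw [Finset.card_powersetCard, hI'.2.1]
  rw [Finset.sum_congr rfl this, Finset.sum_const, smul_eq_mul, mul_comm]

theorem sCNT : S_CNT := by
  intro n d F _ hext j hj
  refine ⟨?_, key hext (j + 1) d (by omega) (by omega) le_rfl⟩
  have := key hext 1 (j + 1) le_rfl (by omega) (by omega)
  simpa using this

end Pool.Agent.W199.RP
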