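import Pool.Agent.W712.RP.Stm

set_option autoImplicit false

open MeasureTheory Set Filter Topology
open scoped ENNReal

namespace Pool.Agent.W199.RP

open Pool.Agent.W712.RP

theorem isProb_unif {E : Type} [NormedAddCommGroup E] [NormedSpace ℝ E] [FiniteDimensional ℝ E]
    [MeasurableSpace E] [BorelSpace E] (μ : Measure E) [μ.IsAddHaarMeasure] (L : Set E)
    (hL : Body L) : IsProbabilityMeasure (unif μ L) := by
  have h0 : μ L ≠ 0 := by
    have := (isOpen_interior.measure_pos μ hL.interior_nonempty)
    exact ne_of_gt (lt_of_lt_of_le this (measure_mono interior_subset))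
  have h1 : μ L ≠ ⊤ := hL.compact.measure_lt_top.ne
  constructor
  unfold unif
  rw [Measure.smul_apply, Measure.restrict_apply_univ, smul_eq_mul]
  exact ENNReal.inv_mul_cancel h0 h1

theorem ncard_eq_sum {n : ℕ} (j : ℕ) (F : Finset (Fin n) → Prop) :
    (Set.ncard {I : Finset (Fin n) | I.card = j + 1 ∧ F I} : ℝ) =
      ∑ I ∈ Finset.powersetCard (j + 1) (Finset.univ : Finset (Fin n)),
        Set.indicator {I | F I} (fun _ => (1 : ℝ)) I := by
  classical
  have : Set.ncard {I : Finset (Fin n) | I.card = j + 1 ∧ F I} =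
      ((Finset.powersetCard (j + 1) (Finset.univ : Finset (Fin n))).filter F).card := by
    rw [← Set.ncard_coe_finset]
    congr 1
    ext I
    simp [Finset.mem_powersetCard]
  rw [this, Finset.card_filter, Nat.cast_sum]
  refine Finset.sum_congr rfl fun I _ => ?_
  by_cases h : F I <;> simp [Set.indicator, h]

theorem efa : S_GP → S_FC → S_MF → S_EFA := by
  intro hGP hFC hMF E _ _ _ _ _ μ _ L hL n hn j hj
  haveI : IsProbabilityMeasure (unif μ L) := isProb_unif μ L hL
  set P : Measure (Fin n → E) := Measure.pi fun _ : Fin n => unif μ L with hP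
  haveI : IsProbabilityMeasure P := by rw [hP]; infer_instance
  have hae : (fun x : Fin n → E => (faceNum (convexHull ℝ (Set.range x)) j : ℝ)) =ᵐ[P]
      (fun x => ∑ I ∈ Finset.powersetCard (j + 1) (Finset.univ : Finset (Fin n)),
        Set.indicator {x : Fin n → E | FaceSet x I} (fun _ => (1 : ℝ)) x) := by
    filter_upwards [hGP E μ L hL (by omega) n] with x hx
    rw [hFC E n x hx hn j hj, ncard_eq_sum]
    rfl
  have hint : ∀ I ∈ Finset.powersetCard (j + 1) (Finset.univ : Finset (Fin n)),
      Integrable (Set.indicator {x : Fin n → E | FaceSet x I} (fun _ => (1 : ℝ))) P := by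
    intro I _
    exact (integrable_const (1 : ℝ)).indicator (hMF E n I)
  refine ⟨(integrable_finset_sum _ hint).congr hae.symm, ?_⟩
  rw [integral_congr_ae hae, integral_finset_sum _ hint]
  have h2 : ∀ I ∈ Finset.powersetCard (j + 1) (Finset.univ : Finset (Fin n)),
      ∫ x, Set.indicator {x : Fin n → E | FaceSet x I} (fun _ => (1 : ℝ)) x ∂P =
        (faceP μ L n I).toReal := by
    intro I _
    rw [integral_indicator_const _ (hMF E n I)]
    simp [faceP, Measure.real, ← hP]
  rw [Finset.sum_congr rfl h2, ENNReal.ofReal_sum_of_nonneg (fun _ _ => ENNReal.toReal_nonneg)]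
  refine Finset.sum_congr rfl fun I _ => ?_
  exact ENNReal.ofReal_toReal (by rw [faceP, ← hP]; exact measure_ne_top P _)

end Pool.Agent.W199.RP
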